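import Pool.Agent.H38.RC.RM

/-!
# Real closures of cyclic subgroups: almost all points

Let `A` be an abelian variety over `ℚ` of dimension `g ≥ 1`. The group `Γ = A(ℚ)` is mapped by `ι` into the compact group
`G = A(ℝ)`, which has finitely many components and whose component `A(ℝ)⁰` of the origin is the torus `(ℝ / ℤ) ^ g`
(`IsRealPoints`). Let `Q₁, ..., Q_R` be rational points.

* Zero-one law: either for none of the points `P = ∑ x_j Q_j` the closure of `ℤ P` contains `A(ℝ)⁰`, or this is true for all but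
  at most `g (2 T + 1) ^ (R - 1)` of the `(2 T + 1) ^ R` points with integral coefficients in `[-T, T]`, for every `T`.
* If `Q₁, ..., Q_R` are independent and all subgroups of rank `R - g + 1` of the group they generate have closures
  which contain `A(ℝ)⁰` then the second case holds: the closures of almost all cyclic subgroups contain `A(ℝ)⁰`.
* By Waldschmidt's theorem (the hypothesis `Waldschmidt`) this is true for simple `A` if `R ≥ g ^ 2`: if the rank of `A(ℚ)` is at
  least `g ^ 2` then the assertion of Q1 holds for almost all points `P`.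
* If a field `F` of degree `g` acts on `A` (varieties of `GL₂`-type) this is proved without Waldschmidt's theorem (or any other
  theorem of transcendence): if `Q₁, ..., Q_R` is a basis of a subgroup of finite index of `A(ℚ)` and `R ≥ g ^ 2` then the assertion
  of Q1 holds for almost all points `P`.
-/

set_option autoImplicit false

namespace Pool.Agent.Results.MP_e5b57f_nt.AlmostAllPoints

open Module Pool.Agent.H38.RC

variable {Γ G : Type} [AddCommGroup Γ] [AddCommGroup G] [TopologicalSpace G]

/-- The closure of the image of the set `D` of points contains the component of the origin. -/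
def DenseInComponent (ι : Γ →+ G) (D : Set Γ) : Prop := connectedComponent (0 : G) ⊆ closure (ι '' D)

/-- The theorem of Waldschmidt for simple abelian varieties of dimension `g`: the closure of every subgroup of `A(ℚ)` which
contains `n ≥ g ^ 2 - g + 1` independent points contains the component of the origin. -/
def Waldschmidt (g : ℕ) (ι : Γ →+ G) : Prop :=
  ∀ n : ℕ, g ^ 2 - g + 1 ≤ n → ∀ S : Fin n → Γ, LinearIndependent ℤ S →
    DenseInComponent ι (AddSubgroup.closure (Set.range S))

/-- The assertion of Q1 for the point `P`: the closure of `ℤ P` contains the component of the origin. -/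
def Q1At (ι : Γ →+ G) (P : Γ) : Prop := DenseInComponent ι (AddSubgroup.zmultiples P)

/-- The assertion of Q1 holds for almost all points `∑ x_j Q_j`. -/
def AlmostAll (g : ℕ) (ι : Γ →+ G) {R : ℕ} (Q : Fin R → Γ) : Prop :=
  ∀ T : ℕ, {x : Fin R → ℤ | (∀ j, |x j| ≤ T) ∧ ¬ Q1At ι (∑ j, x j • Q j)}.ncard ≤ g * (2 * T + 1) ^ (R - 1)

variable [IsTopologicalAddGroup G] [CompactSpace G] [T2Space G]

section
variable {g : ℕ} {e : UnitAddTorus (Fin g) →+ G} {ι : Γ →+ G} {N : ℕ} {τ : Γ →+ UnitAddTorus (Fin g)}

lemma q1At_iff (he : IsRealPoints e) (hN : N ≠ 0) (h : ∀ γ, e (τ γ) = N • ι γ) (P : Γ) :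
    Q1At ι P ↔ LinearIndependent ℚ fun i => κ (τ P i) := by
  constructor
  · intro hP
    rw [Fintype.linearIndependent_iff]
    by_contra hcon
    push Not at hcon
    obtain ⟨m, hm, i, hi⟩ := hcon
    obtain ⟨j, hj⟩ := Pool.Agent.H38.RC.exists_ne he hN h (fun _ : Fin 1 => P) (AddSubgroup.zmultiples P : Set Γ)
      (by
        intro x hx
        have h1 : AddSubgroup.zmultiples P ≤ AddSubgroup.closure (Set.range fun _ : Fin 1 => P) :=
          (AddSubgroup.zmultiples_le).2 (AddSubgroup.subset_closure ⟨0, rfl⟩)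
        exact h1 hx) hP m (fun h0 => hi (by rw [h0]; rfl))
    exact hj hm
  · intro hP
    have h1 := good_of_indep he h P hP
    refine h1.trans (closure_mono ?_)
    rintro _ ⟨n, rfl⟩
    exact ⟨n • P, AddSubgroup.mem_zmultiples_iff.2 ⟨n, rfl⟩, map_zsmul ι n P⟩

lemma κτ_sum {R : ℕ} (Q : Fin R → Γ) (x : Fin R → ℤ) (i : Fin g) :
    κ (τ (∑ j, x j • Q j) i) = ∑ j, (x j : ℚ) • κ (τ (Q j) i) := by
  rw [map_sum, Finset.sum_apply, map_sum]
  refine Finset.sum_congr rfl fun j _ => ?_
  rw [map_zsmul, Pi.smul_apply, map_zsmul, Int.cast_smul_eq_zsmul]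

/-- one good combination (with rational coefficients) is enough -/
lemma almostAll_of (hg : 0 < g) (he : IsRealPoints e) (hN : N ≠ 0) (h : ∀ γ, e (τ γ) = N • ι γ) {R : ℕ} (Q : Fin R → Γ)
    (x₀ : Fin R → ℚ) (hx₀ : LinearIndependent ℚ fun i => ∑ j, x₀ j • κ (τ (Q j) i)) : AlmostAll g ι Q := by
  intro T
  have hR : 0 < R := by
    rcases Nat.eq_zero_or_pos R with rfl | hR
    · exfalso
      apply hx₀.ne_zero ⟨0, hg⟩
      simp
    · exact hR
  obtain ⟨L, hL⟩ := left_inv hx₀
  have h0 : (Matrix.of fun i k => ∑ j, x₀ j * L (κ (τ (Q j) i)) k).det ≠ 0 := by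
    have h1 : (Matrix.of fun i k => ∑ j, x₀ j * L (κ (τ (Q j) i)) k) = 1 := by
      ext i k
      have h2 := congrFun (hL i) k
      rw [map_sum, Finset.sum_apply] at h2
      simp only [map_smul, Pi.smul_apply, smul_eq_mul] at h2
      rw [Matrix.of_apply, h2]
      simp [Matrix.one_apply, Pi.single_apply, eq_comm]
    rw [h1, Matrix.det_one]
    exact one_ne_zero
  refine le_trans (Set.ncard_le_ncard ?_ ?_) (zeros_le hR (fun j i k => L (κ (τ (Q j) i)) k) x₀ h0 T)
  · rintro x ⟨hx1, hx2⟩
    refine ⟨hx1, ?_⟩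
    by_contra hne
    apply hx2
    rw [q1At_iff he hN h]
    refine indep_of_det L ?_
    have h1 : (Matrix.of fun i => L (κ (τ (∑ j, x j • Q j) i))) =
        Matrix.of fun i k => ∑ j, (x j : ℚ) * L (κ (τ (Q j) i)) k := by
      ext i k
      rw [Matrix.of_apply, Matrix.of_apply, κτ_sum, map_sum, Finset.sum_apply]
      simp only [map_smul, Pi.smul_apply, smul_eq_mul]
    rw [h1]
    exact hne
  · refine ((Set.Finite.pi' fun _ : Fin R => Set.finite_Icc (-(T : ℤ)) T)).subset ?_
    rintro x ⟨hx1, -⟩ j
    exact abs_le.1 (hx1 j)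

lemma almostAll_of_dense (hg : 0 < g) (he : IsRealPoints e) (hN : N ≠ 0) (h : ∀ γ, e (τ γ) = N • ι γ) {R : ℕ} (Q : Fin R → Γ)
    (n : ℕ) (hn : n + g ≤ R + 1) (hQ : LinearIndependent ℤ Q)
    (H : ∀ S : Fin n → Γ, LinearIndependent ℤ S → (∀ i, S i ∈ AddSubgroup.closure (Set.range Q)) →
      DenseInComponent ι (AddSubgroup.closure (Set.range S))) : AlmostAll g ι Q := by
  classical
  -- every kernel has dimension less than `n`
  have hker : ∀ m : Fin g → ℚ, m ≠ 0 →
      finrank ℚ (LinearMap.ker (Fintype.linearCombination ℚ fun j => ∑ i, m i • κ (τ (Q j) i))) < n := by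
    intro m hm
    by_contra hge
    push Not at hge
    set U := LinearMap.ker (Fintype.linearCombination ℚ fun j => ∑ i, m i • κ (τ (Q j) i)) with hU
    let b := finBasis ℚ U
    let y : Fin n → (Fin R → ℚ) := fun a => (b (Fin.castLE hge a) : Fin R → ℚ)
    have hy : LinearIndependent ℚ y := by
      have h1 := (b.linearIndependent.comp _ (Fin.castLE_injective hge)).map' U.subtype (Submodule.ker_subtype U)
      exact h1
    choose d z hd hz using fun a => clear_denoms (y a)
    have hz2 : ∀ a, (fun j => (z a j : ℚ)) = (d a : ℚ) • y a := by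
      intro a
      funext j
      rw [hz, Pi.smul_apply, smul_eq_mul]
    have hzi : LinearIndependent ℤ z := by
      have h1 : LinearIndependent ℚ fun a => (d a : ℚ) • y a :=
        hy.units_smul fun a => Units.mk0 (d a : ℚ) (by exact_mod_cast hd a)
      have h2 : LinearIndependent ℤ fun a => (d a : ℚ) • y a := h1.restrict_scalars (by
        intro p q hpq
        simpa using hpq)
      let c : (Fin R → ℤ) →ₗ[ℤ] (Fin R → ℚ) :=
        { toFun := fun v j => (v j : ℚ)
          map_add' := by intro v w; funext j; simp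
          map_smul' := by intro r v; funext j; simp }
      refine LinearIndependent.of_comp c ?_
      convert h2 using 1
      funext a
      exact hz2 a
    let S : Fin n → Γ := fun a => ∑ j, z a j • Q j
    have hS : LinearIndependent ℤ S := by
      have hk : LinearMap.ker (Fintype.linearCombination ℤ Q) = ⊥ := by
        rw [LinearMap.ker_eq_bot']
        intro c hc
        funext i
        exact Fintype.linearIndependent_iff.1 hQ c (by simpa [Fintype.linearCombination_apply] using hc) i
      exact hzi.map' (Fintype.linearCombination ℤ Q) hk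
    have hSm : ∀ a, S a ∈ AddSubgroup.closure (Set.range Q) := fun a =>
      AddSubgroup.sum_mem _ fun j _ => AddSubgroup.zsmul_mem _ (AddSubgroup.subset_closure (Set.mem_range_self j)) _
    obtain ⟨a, ha⟩ := Pool.Agent.H38.RC.exists_ne he hN h S _ (fun _ hx => hx) (H S hS hSm) m hm
    apply ha
    have h3 : Fintype.linearCombination ℚ (fun j => ∑ i, m i • κ (τ (Q j) i)) (y a) = 0 := (b (Fin.castLE hge a)).2
    have h4 : ∑ i, m i • κ (τ (S a) i) =
        (d a : ℚ) • Fintype.linearCombination ℚ (fun j => ∑ i, m i • κ (τ (Q j) i)) (y a) := by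
      rw [← map_smul, ← hz2 a]
      simp only [Fintype.linearCombination_apply, S, κτ_sum, Finset.smul_sum]
      rw [Finset.sum_comm]
      refine Finset.sum_congr rfl fun j _ => Finset.sum_congr rfl fun i _ => ?_
      rw [smul_comm]
    rw [h4, h3, smul_zero]
  have hn1 : 1 ≤ n := by
    have := hker (fun _ => 1) (by
      intro h0
      have := congrFun h0 ⟨0, hg⟩
      simp at this)
    omega
  obtain ⟨x, hx⟩ := exists_indep (k := n - 1) (fun j i => κ (τ (Q j) i)) (fun m hm => by have := hker m hm; omega) (by omega)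
  exact almostAll_of hg he hN h Q x hx

end

/-- **Q1 for almost all points.** -/
theorem result {g : ℕ} (hg : 0 < g) (e : UnitAddTorus (Fin g) →+ G) (he : IsRealPoints e) (ι : Γ →+ G) {R : ℕ}
    (Q : Fin R → Γ) :
    ((∀ x : Fin R → ℤ, ¬ Q1At ι (∑ j, x j • Q j)) ∨ AlmostAll g ι Q) ∧
    (LinearIndependent ℤ Q → ∀ n : ℕ, n + g = R + 1 →
      (∀ S : Fin n → Γ, LinearIndependent ℤ S → (∀ i, S i ∈ AddSubgroup.closure (Set.range Q)) →
        DenseInComponent ι (AddSubgroup.closure (Set.range S))) → AlmostAll g ι Q) ∧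
    (LinearIndependent ℤ Q → g ^ 2 ≤ R → Waldschmidt g ι → AlmostAll g ι Q) ∧
    (LinearIndependent ℤ Q → g ^ 2 ≤ R → (∀ P : Γ, ∃ M : ℕ, M ≠ 0 ∧ M • P ∈ AddSubgroup.closure (Set.range Q)) →
      Function.Injective ι → ∀ (F : Type) [Field F] [NumberField F] (act : F →ₐ[ℚ] Matrix (Fin g) (Fin g) ℚ) (O : Subring F)
      (ε : O →+* AddMonoid.End Γ), IsEndField e ι act O ε → finrank ℚ F = g → AlmostAll g ι Q) := by
  obtain ⟨N, τ, hN, h⟩ := exists_tau he ι
  refine ⟨?_, ?_, ?_, ?_⟩
  · by_cases h1 : ∃ x : Fin R → ℤ, Q1At ι (∑ j, x j • Q j)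
    · obtain ⟨x, hx⟩ := h1
      rw [q1At_iff he hN h] at hx
      simp only [κτ_sum] at hx
      exact Or.inr (almostAll_of hg he hN h Q (fun j => (x j : ℚ)) hx)
    · push Not at h1
      exact Or.inl h1
  · intro hQ n hn H
    exact almostAll_of_dense hg he hN h Q n hn.le hQ H
  · intro hQ hR HW
    have hg2 : g ≤ g ^ 2 := Nat.le_self_pow two_ne_zero g
    exact almostAll_of_dense hg he hN h Q (g ^ 2 - g + 1) (by omega) hQ fun S hS _ => HW _ le_rfl S hS
  · intro hQ hR hfin hι F _ _ act O ε hF hdeg
    have hg2 : g ≤ g ^ 2 := Nat.le_self_pow two_ne_zero g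
    obtain ⟨x, hx⟩ := exists_indep (k := R - g) (fun j i => κ (τ (Q j) i))
      (fun m hm => finrank_ker_le he.injective hι hN h hF hdeg Q hQ hfin hR hg m hm) (by omega)
    exact almostAll_of hg he hN h Q x hx

end Pool.Agent.Results.MP_e5b57f_nt.AlmostAllPoints
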