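import Pool.Agent.Results.MP_e5b57f_nt.AlmostAllPoints

/-!
# Real closures of cyclic subgroups: one character is enough for varieties of `GL₂`-type

Let `A` be an abelian variety over `ℚ` of dimension `g ≥ 1` on which an order `O` of a number field `F` of degree `g` acts. Identify
`A(ℝ)⁰` with the torus `(ℝ / ℤ) ^ g`.

* Let `m ≠ 0` be any character of the torus. The assertion of Q1 for all non-torsion points of `A(ℚ)` is true if and only if the
  value of this one character at every non-torsion point of `A(ℚ)` which lies in `A(ℝ)⁰` has infinite order.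
* The assertion of Q1 is true for `P` if and only if it is true for `a P`, for `a ≠ 0` in `O`. If the rank of `A(ℚ)` is `g`, it is
  true for all non-torsion points or for none.
-/

set_option autoImplicit false

namespace Pool.Agent.Results.MP_e5b57f_nt.OneCharacter

open Module Pool.Agent.H38.RC Pool.Agent.Results.MP_e5b57f_nt.AlmostAllPoints

lemma κ_eq_zero_of {t : UnitAddCircle} (h : IsOfFinAddOrder t) : κ t = 0 := by
  obtain ⟨n, hn, h1⟩ := isOfFinAddOrder_iff_nsmul_eq_zero.1 h
  have h2 := congrArg κ h1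
  rw [map_nsmul, map_zero, ← Nat.cast_smul_eq_nsmul ℚ] at h2
  exact (smul_eq_zero.1 h2).resolve_left (by exact_mod_cast hn.ne')

lemma finOrder_of_κ {t : UnitAddCircle} (h : κ t = 0) : IsOfFinAddOrder t := by
  obtain ⟨n, hn, h1⟩ := torsion_of_κ h
  exact isOfFinAddOrder_iff_nsmul_eq_zero.2 ⟨n, Nat.pos_of_ne_zero hn, h1⟩

variable {Γ G : Type} [AddCommGroup Γ] [AddCommGroup G] [TopologicalSpace G] [IsTopologicalAddGroup G] [CompactSpace G] [T2Space G]
  {g : ℕ} {e : UnitAddTorus (Fin g) →+ G} {ι : Γ →+ G} {N : ℕ} {τ : Γ →+ UnitAddTorus (Fin g)}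
  {F : Type} [Field F] [NumberField F] {act : F →ₐ[ℚ] Matrix (Fin g) (Fin g) ℚ} {O : Subring F} {ε : O →+* AddMonoid.End Γ}

set_option linter.unusedSectionVars false

/-- every nonzero element of the order divides a positive integer -/
lemma exists_mul (hF : IsEndField e ι act O ε) (a : O) (ha : a ≠ 0) :
    ∃ (b : O) (n : ℕ), n ≠ 0 ∧ ∀ P, ε b (ε a P) = n • P := by
  obtain ⟨n, hn, hb⟩ := hF.order ((a : F)⁻¹)
  refine ⟨⟨_, hb⟩, n, hn, fun P => ?_⟩
  have ha' : (a : F) ≠ 0 := fun h => ha (Subtype.ext h)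
  have h1 : (⟨(n : F) * (a : F)⁻¹, hb⟩ : O) * a = (n : O) := by
    apply Subtype.ext
    show (n : F) * (a : F)⁻¹ * (a : F) = ((n : O) : F)
    rw [mul_assoc, inv_mul_cancel₀ ha', mul_one]
    simp
  have h2 : ε ⟨(n : F) * (a : F)⁻¹, hb⟩ (ε a P) = ε (⟨(n : F) * (a : F)⁻¹, hb⟩ * a) P := by
    rw [map_mul]
    rfl
  rw [h2, h1, map_natCast, AddMonoid.End.natCast_apply]

lemma sum_act (he : IsRealPoints e) (h : ∀ γ, e (τ γ) = N • ι γ) (hF : IsEndField e ι act O ε) (a : O) (P : Γ) (m : Fin g → ℚ) :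
    ∑ k, m k • κ (τ (ε a P) k) = ∑ i, ((act a).transpose.mulVec m) i • κ (τ P i) := by
  simp only [κτ_end he.injective h hF, Matrix.mulVec, dotProduct, Matrix.transpose_apply, Finset.sum_smul, Finset.smul_sum,
    smul_smul]
  rw [Finset.sum_comm]
  refine Finset.sum_congr rfl fun i _ => Finset.sum_congr rfl fun k _ => ?_
  rw [mul_comm]

lemma q1At_mono (P : Γ) (n : ℕ) (h : Q1At ι (n • P)) : Q1At ι P := by
  refine h.trans (closure_mono (Set.image_mono ?_))
  intro x hx
  obtain ⟨k, rfl⟩ := AddSubgroup.mem_zmultiples_iff.1 hx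
  exact AddSubgroup.zsmul_mem _ (AddSubgroup.nsmul_mem _ (AddSubgroup.mem_zmultiples P) n) k

lemma q1At_end (he : IsRealPoints e) (hN : N ≠ 0) (h : ∀ γ, e (τ γ) = N • ι γ) (hF : IsEndField e ι act O ε) (a : O) (ha : a ≠ 0)
    (P : Γ) (hP : Q1At ι P) : Q1At ι (ε a P) := by
  rw [q1At_iff he hN h] at hP ⊢
  rw [Fintype.linearIndependent_iff]
  intro c hc
  rw [sum_act he h hF] at hc
  have h1 := Fintype.linearIndependent_iff.1 hP _ hc
  have h2 : (act (a : F)).transpose.mulVec c = 0 := funext h1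
  have ha' : (a : F) ≠ 0 := fun h => ha (Subtype.ext h)
  have h3 : (act (a : F)⁻¹).transpose.mulVec ((act (a : F)).transpose.mulVec c) = c := by
    rw [Matrix.mulVec_mulVec, ← Matrix.transpose_mul, ← map_mul, mul_inv_cancel₀ ha', map_one, Matrix.transpose_one,
      Matrix.one_mulVec]
  rw [h2, Matrix.mulVec_zero] at h3
  intro i
  rw [← h3]
  rfl

/-- **One character is enough for varieties of `GL₂`-type.** -/
theorem result (hg : 0 < g) (he : IsRealPoints e) (hF : IsEndField e ι act O ε) (hdeg : finrank ℚ F = g) :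
    (∀ m : Fin g → ℤ, m ≠ 0 → ((∀ P : Γ, ¬ IsOfFinAddOrder P → Q1At ι P) ↔
      ∀ (P : Γ) (t : UnitAddTorus (Fin g)), ι P = e t → IsOfFinAddOrder (∑ i, m i • t i) → IsOfFinAddOrder P)) ∧
    (∀ (a : O) (P : Γ), a ≠ 0 → (Q1At ι (ε a P) ↔ Q1At ι P)) ∧
    (∀ P₀ : Γ, (∀ P : Γ, ∃ (n : ℕ) (a : O), n ≠ 0 ∧ n • P = ε a P₀) →
      (∀ P : Γ, ¬ IsOfFinAddOrder P → Q1At ι P) ∨ ∀ P : Γ, ¬ Q1At ι P) := by
  classical
  obtain ⟨N, τ, hN, h⟩ := exists_tau he ι
  have hiff : ∀ (a : O) (P : Γ), a ≠ 0 → (Q1At ι (ε a P) ↔ Q1At ι P) := by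
    intro a P ha
    refine ⟨fun h1 => ?_, q1At_end he hN h hF a ha P⟩
    obtain ⟨b, n, hn, hb⟩ := exists_mul hF a ha
    have hb0 : b ≠ 0 := by
      intro h0
      have h2 := (q1At_iff he hN h _).1 h1
      apply h2.ne_zero ⟨0, hg⟩
      have h3 := hb P
      rw [h0, map_zero] at h3
      have h4 : n • P = 0 := h3.symm
      have h5 : n • ε a P = 0 := by rw [← map_nsmul, h4, map_zero]
      have h6 : (n : ℚ) • κ (τ (ε a P) ⟨0, hg⟩) = 0 := by
        rw [Nat.cast_smul_eq_nsmul, ← map_nsmul, ← Pi.smul_apply, ← map_nsmul, h5, map_zero, Pi.zero_apply, map_zero]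
      exact (smul_eq_zero.1 h6).resolve_left (by exact_mod_cast hn)
    have h2 := q1At_end he hN h hF b hb0 _ h1
    rw [hb] at h2
    exact q1At_mono P n h2
  refine ⟨fun m hm => ⟨?_, ?_⟩, hiff, ?_⟩
  · intro hQ P t hPt hfin
    by_contra hP
    have hind := (q1At_iff he hN h _).1 (hQ P hP)
    have hτ : τ P = N • t := he.injective (by rw [h, hPt, map_nsmul])
    have h1 : ∑ i, (m i : ℚ) • κ (τ P i) = 0 := by
      have h2 : ∀ i, (m i : ℚ) • κ (τ P i) = (N : ℚ) • κ (m i • t i) := by
        intro i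
        rw [hτ, Pi.smul_apply, map_nsmul, map_zsmul, ← Nat.cast_smul_eq_nsmul ℚ, ← Int.cast_smul_eq_zsmul ℚ, smul_comm]
      rw [Finset.sum_congr rfl fun i _ => h2 i, ← Finset.smul_sum, ← map_sum, κ_eq_zero_of hfin, smul_zero]
    apply hm
    funext i
    exact_mod_cast Fintype.linearIndependent_iff.1 hind _ h1 i
  · intro H P hP
    rw [q1At_iff he hN h, Fintype.linearIndependent_iff]
    by_contra hcon
    push Not at hcon
    obtain ⟨c, hc, i₀, hi₀⟩ := hcon
    let mq : Fin g → ℚ := fun i => (m i : ℚ)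
    have hmq : mq ≠ 0 := by
      intro h0
      apply hm
      funext i
      have := congrFun h0 i
      simpa [mq] using this
    let θ : F →ₗ[ℚ] (Fin g → ℚ) :=
      { toFun := fun x => (act x).transpose.mulVec mq
        map_add' := fun x y => by rw [map_add, Matrix.transpose_add, Matrix.add_mulVec]
        map_smul' := fun r x => by rw [map_smul, Matrix.transpose_smul, Matrix.smul_mulVec, RingHom.id_apply] }
    have hθ : Function.Injective θ := by
      rw [injective_iff_map_eq_zero]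
      intro x hx
      by_contra hx0
      apply hmq
      have h1 : (act x).transpose.mulVec mq = 0 := hx
      have h2 : (act x⁻¹).transpose.mulVec ((act x).transpose.mulVec mq) = mq := by
        rw [Matrix.mulVec_mulVec, ← Matrix.transpose_mul, ← map_mul, mul_inv_cancel₀ hx0, map_one, Matrix.transpose_one,
          Matrix.one_mulVec]
      rw [← h2, h1, Matrix.mulVec_zero]
    have hθs : Function.Surjective θ := by
      rw [← LinearMap.injective_iff_surjective_of_finrank_eq_finrank (by rw [hdeg, Module.finrank_fin_fun])]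
      exact hθ
    obtain ⟨x, hx⟩ := hθs c
    have hx0 : x ≠ 0 := by
      intro h0
      rw [h0, map_zero] at hx
      exact hi₀ (by rw [← hx]; rfl)
    obtain ⟨n, hn, hxO⟩ := hF.order x
    set a : O := ⟨(n : F) * x, hxO⟩ with ha
    have ha0 : a ≠ 0 := by
      intro h0
      have h1 : (n : F) * x = 0 := congrArg Subtype.val h0
      exact (mul_ne_zero (by exact_mod_cast hn) hx0) h1
    have h3 : ∀ i, ((act (a : F)).transpose.mulVec mq) i = (n : ℚ) * c i := by
      intro i
      have h2 : (a : F) = (n : ℚ) • x := by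
        rw [Algebra.smul_def]
        simp [ha]
      have h4 : (act x).transpose.mulVec mq = c := hx
      rw [h2, map_smul, Matrix.transpose_smul, Matrix.smul_mulVec, Pi.smul_apply, smul_eq_mul, h4]
    have h4 : ∑ k, mq k • κ (τ (ε a P) k) = 0 := by
      rw [sum_act he h hF]
      simp only [h3, mul_smul, ← Finset.smul_sum]
      rw [hc, smul_zero]
    have h5 : IsOfFinAddOrder (∑ k, m k • τ (ε a P) k) := by
      apply finOrder_of_κ
      rw [map_sum, ← h4]
      refine Finset.sum_congr rfl fun k _ => ?_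
      rw [map_zsmul, Int.cast_smul_eq_zsmul]
    have h6 := H (N • ε a P) (τ (ε a P)) (by rw [map_nsmul, h]) h5
    obtain ⟨n1, hn1, h7⟩ := isOfFinAddOrder_iff_nsmul_eq_zero.1 h6
    obtain ⟨b, n2, hn2, hb⟩ := exists_mul hF a ha0
    apply hP
    refine isOfFinAddOrder_iff_nsmul_eq_zero.2 ⟨n1 * N * n2, by positivity, ?_⟩
    rw [mul_smul, ← hb P, ← map_nsmul, mul_smul, h7, map_zero]
  · intro P₀ hall
    by_cases hex : ∃ P, Q1At ι P
    · left
      obtain ⟨P, hP⟩ := hex
      obtain ⟨n, a, hn, hna⟩ := hall P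
      have hnn : Q1At ι (n • P) := by
        rw [q1At_iff he hN h] at hP ⊢
        have h1 := hP.units_smul fun _ => Units.mk0 (n : ℚ) (by exact_mod_cast hn)
        convert h1 using 1
        funext i
        show κ (τ (n • P) i) = (n : ℚ) • κ (τ P i)
        rw [map_nsmul, Pi.smul_apply, map_nsmul, Nat.cast_smul_eq_nsmul]
      have ha0 : a ≠ 0 := by
        intro h0
        rw [hna, h0, map_zero, q1At_iff he hN h] at hnn
        apply hnn.ne_zero ⟨0, hg⟩
        show κ (τ 0 _) = 0
        rw [map_zero, Pi.zero_apply, map_zero]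
      rw [hna, hiff a P₀ ha0] at hnn
      intro P' hP'
      obtain ⟨n', a', hn', hna'⟩ := hall P'
      have ha0' : a' ≠ 0 := by
        intro h0
        apply hP'
        rw [h0, map_zero] at hna'
        exact isOfFinAddOrder_iff_nsmul_eq_zero.2 ⟨n', Nat.pos_of_ne_zero hn', hna'⟩
      have h1 := (hiff a' P₀ ha0').2 hnn
      rw [← hna'] at h1
      exact q1At_mono P' n' h1
    · right
      push Not at hex
      exact hex

end Pool.Agent.Results.MP_e5b57f_nt.OneCharacter
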